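import Pool.Agent.NH85.SD.Fin
import Pool.Agent.NH85.SD.Dc

/-!
# Compatibility of phylogenetic semi-directed networks is decidable

`Compatible simple (n, l)` says that the nonempty finite set of leaf-labelled mixed graphs given by
the list `l` is compatible (leaf labels are in `{1, …, n}`).  The definitions are in
`Pool.Agent.NH85.SD.Stmt`.  The proof shows that a compatible set has a network of polynomial size
(`small_witness`), and that compatibility is in the class `NP` (`compatible_inNP`).
-/

namespace Pool.Agent.Results.MP_a53cac_lc.CompatibilityDecidable

open Pool.Agent.NPC Pool.Agent.NH85.SDN

/-- There is an algorithm that decides, given `n` and a nonempty finite set of leaf-labelled mixed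
graphs, whether the set is compatible. -/
theorem result (simple : Prop) :
    ComputablePred (fun p : ℕ × List MG => Compatible simple p) := by
  have key : ∀ c : Bool, ComputablePred (fun p : ℕ × List MG => Compatible (c = true) p) := by
    intro c
    have hV : Primrec (bits : Vx → List Bool) :=
      primrec_bits_sum primrec_bits_nat primrec_bits_nat
    have hA : Primrec (bits : List (Vx × Vx) → List Bool) :=
      primrec_bits_list (primrec_bits_pair hV hV)
    have hM : Primrec (bits : ℕ × List MG → List Bool) :=
      primrec_bits_pair primrec_bits_nat (primrec_bits_list (primrec_bits_pair hA hA))
    exact computablePred_of_inNPP hM (compatible_inNP c)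
  by_cases h : simple
  · have h1 : simple = (true = true) := propext ⟨fun _ => rfl, fun _ => h⟩
    rw [h1]
    exact key true
  · have h1 : simple = (false = true) := propext ⟨fun h' => absurd h' h, fun h' => by simp at h'⟩
    rw [h1]
    exact key false

end Pool.Agent.Results.MP_a53cac_lc.CompatibilityDecidable
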